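import Mathlib
import Pool.Agent.L0h45.DH.Fin

/-!
# All semistable elliptic curves over `ℚ`: conductor, height and Szpiro ratio

No condition on torsion, on the `j`-invariant or on the reduction at `2` and `3` is imposed. The number of semistable
curves of height about `H` and conductor at most `Z` is `≪ H ^ ε (Z H ^ (-1/6) + H ^ (7/12))`. So

* for `1 ≤ σ ≤ 4/3` exactly `H ^ (1/σ - 1/6 + o(1))` semistable curves of height at most `H` have `|Δ| ≥ C N ^ σ`;
* for `1 < β ≤ 10/7` there are `Z ^ (5/6 + o(1))` semistable curves with conductor at most `Z` and height at most `Z ^ β`,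
  and if `β < 10/7`, then for every `δ > 0` all but `O(Z ^ (5/6 - η))` of them satisfy `|Δ| ≤ N ^ (1 + δ)`.

The proof parametrises the curves whose discriminant has a large square divisor `q²` by the integral binary cubic forms
with leading coefficient `q`.
-/

set_option autoImplicit false

namespace Pool.Agent.Results.MP_d8bd92_nt.AllCurvesByConductor

open Filter Topology

/-- the conductor of a semistable curve: the product of the primes dividing the discriminant -/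
def conductor (W : WeierstrassCurve ℤ) : ℕ := ∏ p ∈ W.Δ.natAbs.primeFactors, p

/-- `W` is an elliptic curve with semistable reduction at all primes: `Δ ≠ 0` and `gcd(c₄, Δ) = 1` (so `W` is a global
minimal model) -/
def Semistable (W : WeierstrassCurve ℤ) : Prop := W.Δ ≠ 0 ∧ IsCoprime W.c₄ W.Δ

/-- the naive height of (a minimal model of) a curve -/
noncomputable def height (W : WeierstrassCurve ℤ) : ℝ := max (|(W.c₄ : ℝ)| ^ 3) ((W.c₆ : ℝ) ^ 2)

/-- the semistable elliptic curves over `ℚ` with the property `P`, given by the invariants `(c₄, c₆)` of their global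
minimal models -/
def Curves (P : WeierstrassCurve ℤ → Prop) : Set (ℤ × ℤ) :=
  {q | ∃ W : WeierstrassCurve ℤ, Semistable W ∧ P W ∧ q = (W.c₄, W.c₆)}

/-- **Theorem.** (1) For all `ε > 0` and `H, Z ≥ 1` at most `C(ε) H ^ ε (Z / H ^ (1/6) + H ^ (7/12))` semistable curves
have height in `(H/64, H]` and conductor at most `Z`. (2) At most `C(ε) H ^ ε (Z ^ (5/6) + H ^ (7/12))` have height at most
`H` and conductor at most `Z`. (3) Let `1 ≤ σ ≤ 4/3` and `C > 0`. The number of the semistable curves with height at most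
`H` and `|Δ| ≥ C N ^ σ` is `H ^ (1/σ - 1/6 + o(1))`. (4) Let `1 < β ≤ 10/7`. The number of the semistable curves with
conductor at most `Z` and height at most `Z ^ β` is `Z ^ (5/6 + o(1))`. (5) Let `1 < β < 10/7` and `δ > 0`. At most
`C Z ^ (5/6 - η)` of the curves in (4) have `|Δ| > N ^ (1 + δ)`, with `C, η > 0` depending on `β` and `δ`. -/
theorem result :
    (∀ ε : ℝ, 0 < ε → ∃ C : ℝ, 0 < C ∧ ∀ H Z : ℝ, 1 ≤ H → 1 ≤ Z →
      (Curves fun W => H / 64 < height W ∧ height W ≤ H ∧ (conductor W : ℝ) ≤ Z).Finite ∧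
      ((Curves fun W => H / 64 < height W ∧ height W ≤ H ∧ (conductor W : ℝ) ≤ Z).ncard : ℝ) ≤
        C * H ^ ε * (Z / H ^ (1 / 6 : ℝ) + H ^ (7 / 12 : ℝ))) ∧
    (∀ ε : ℝ, 0 < ε → ∃ C : ℝ, 0 < C ∧ ∀ H Z : ℝ, 1 ≤ H → 1 ≤ Z →
      (Curves fun W => height W ≤ H ∧ (conductor W : ℝ) ≤ Z).Finite ∧
      ((Curves fun W => height W ≤ H ∧ (conductor W : ℝ) ≤ Z).ncard : ℝ) ≤
        C * H ^ ε * (Z ^ (5 / 6 : ℝ) + H ^ (7 / 12 : ℝ))) ∧
    (∀ σ C : ℝ, 1 ≤ σ → σ ≤ 4 / 3 → 0 < C →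
      Tendsto (fun H : ℝ => Real.log ((Curves fun W => height W ≤ H ∧
        C * (conductor W : ℝ) ^ σ ≤ |(W.Δ : ℝ)|).ncard : ℝ) / Real.log H) atTop
        (𝓝 (1 / σ - 1 / 6))) ∧
    (∀ β : ℝ, 1 < β → β ≤ 10 / 7 →
      Tendsto (fun Z : ℝ => Real.log ((Curves fun W => height W ≤ Z ^ β ∧
        (conductor W : ℝ) ≤ Z).ncard : ℝ) / Real.log Z) atTop (𝓝 (5 / 6))) ∧
    (∀ β δ : ℝ, 1 < β → β < 10 / 7 → 0 < δ →
      ∃ η : ℝ, 0 < η ∧ ∃ C : ℝ, 0 < C ∧ ∀ Z : ℝ, 1 ≤ Z →
      ((Curves fun W => height W ≤ Z ^ β ∧ (conductor W : ℝ) ≤ Z ∧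
        (conductor W : ℝ) ^ (1 + δ) < |(W.Δ : ℝ)|).ncard : ℝ) ≤ C * Z ^ (5 / 6 - η)) :=
  ⟨Pool.Agent.L0h45.DH.fin_one, Pool.Agent.L0h45.DH.fin_two,
    fun σ C h1 h2 h3 => Pool.Agent.L0h45.DH.fin_three σ C h1 h2 h3,
    fun β h1 h2 => Pool.Agent.L0h45.DH.fin_four β h1 h2,
    fun β δ h1 h2 h3 => Pool.Agent.L0h45.DH.fin_five β δ h1 h2 h3⟩

end Pool.Agent.Results.MP_d8bd92_nt.AllCurvesByConductor
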