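import Mathlib
import Pool.Agent.L0h45.AD.Dsc
import Pool.Agent.L0h45.AD.RkZ

/-!
# MP_6073f3_nt: ordered by conductor or discriminant, a positive proportion of all elliptic curves has rank zero

All elliptic curves `E` over `ℚ` (any reduction, any `j`) are ordered by the conductor `N`, their height being at most
`N ^ β`-like, `β < 10/7`; more generally by any invariant `I` which is at least a constant times the part prime to `6` of
the conductor and at most a constant times the height. There are between `c Z ^ (5/6)` and `C Z ^ (5/6)` of them with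
`I ≤ Z` and height at most `Z ^ β`, and a positive proportion has finitely many rational points, an odd number. If `I` is at
least a constant times the discriminant, this holds for all `β ≤ 5/2`.

The rank is zero for a positive proportion by height: `MP_7cad78_nt.RankZeroEveryNumberField` with `F = ℚ`. New is the upper
bound for the number of the curves of conductor at most `Z`. The curves with additive reduction are included: the squarefull
part of the discriminant prime to `6` and `c₄` is treated as for semistable curves (binary cubic forms, if its radical is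
large; classes modulo this part, if it is small), and at the additive primes `c₆` lies in few classes modulo a power of the
prime which is almost as large as the one in the discriminant.
-/

set_option autoImplicit false

namespace Pool.Agent.Results.MP_6073f3_nt.RankZeroByConductor

open Filter

/-- The pairs `(A, B)` with `4 A ^ 3 + 27 B ^ 2 ≠ 0` for which no prime `p` satisfies both `p ^ 4 ∣ A` and `p ^ 6 ∣ B`: one
for each elliptic curve over `ℚ`. -/
def Family : Set (ℤ × ℤ) := {q | 4 * q.1 ^ 3 + 27 * q.2 ^ 2 ≠ 0 ∧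
  ∀ p : ℕ, p.Prime → ¬ ((p : ℤ) ^ 4 ∣ q.1 ∧ (p : ℤ) ^ 6 ∣ q.2)}

/-- The group of the rational points of `y ^ 2 = x ^ 3 + A x + B`. -/
abbrev points (q : ℤ × ℤ) : Type :=
  (⟨0, 0, 0, (q.1 : ℚ), (q.2 : ℚ)⟩ : WeierstrassCurve ℚ).toAffine.Point

/-- The rank. -/
noncomputable def rank (q : ℤ × ℤ) : ℕ := Module.finrank ℤ (points q)

/-- The naive height `max (4 |A| ^ 3, 27 B ^ 2)`. -/
noncomputable def height (q : ℤ × ℤ) : ℝ := max (4 * |(q.1 : ℝ)| ^ 3) (27 * (q.2 : ℝ) ^ 2)

/-- `4 A ^ 3 + 27 B ^ 2`; the minimal discriminant is this number times `-16`, divided by `1`, `2 ^ 12`, `3 ^ 12` or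
`6 ^ 12`. -/
def disc (q : ℤ × ℤ) : ℤ := 4 * q.1 ^ 3 + 27 * q.2 ^ 2

/-- The part prime to `6` of the conductor: the product over the primes `p ≥ 5` of bad reduction of `p` (multiplicative
reduction) or `p ^ 2` (additive reduction, that is `p ∣ A`). The conductor is this number times `2 ^ a * 3 ^ b` with
`a ≤ 8` and `b ≤ 5`. -/
def conductor6 (q : ℤ × ℤ) : ℕ :=
  ∏ p ∈ (disc q).natAbs.primeFactors.filter (fun p => 5 ≤ p), if (p : ℤ) ∣ q.1 then p ^ 2 else p

/-- The curves with `I ≤ Z` and height at most `Z ^ β`. -/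
def UpTo (I : ℤ × ℤ → ℝ) (β Z : ℝ) : Set (ℤ × ℤ) := {q ∈ Family | I q ≤ Z ∧ height q ≤ Z ^ β}

/-- The proportion of the curves of rank `r`. -/
noncomputable def proportion (r : ℕ) (I : ℤ × ℤ → ℝ) (β Z : ℝ) : ℝ :=
  ({q ∈ UpTo I β Z | rank q = r}.ncard : ℝ) / ((UpTo I β Z).ncard : ℝ)

/-- The conclusion: there are about `Z ^ (5/6)` curves, and a positive proportion of them has finitely many points, an odd
number, and so rank zero. -/
def PositiveProportion (I : ℤ × ℤ → ℝ) (β : ℝ) : Prop :=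
  (∀ Z : ℝ, (UpTo I β Z).Finite) ∧
  (∃ c C : ℝ, 0 < c ∧ ∀ᶠ Z : ℝ in atTop,
    c * Z ^ (5 / 6 : ℝ) ≤ ((UpTo I β Z).ncard : ℝ) ∧ ((UpTo I β Z).ncard : ℝ) ≤ C * Z ^ (5 / 6 : ℝ)) ∧
  (∃ c : ℝ, 0 < c ∧ ∀ᶠ Z : ℝ in atTop, c * ((UpTo I β Z).ncard : ℝ) ≤
    ({q ∈ UpTo I β Z | Finite (points q) ∧ Odd (Nat.card (points q))}.ncard : ℝ)) ∧
  0 < liminf (proportion 0 I β) atTop

theorem rank_zero (q : ℤ × ℤ) (h : Finite (points q)) : rank q = 0 := by
  unfold rank
  haveI := h
  refine Module.finrank_eq_zero_of_rank_eq_zero ?_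
  rw [rank_eq_zero_iff]
  intro x
  refine ⟨(Nat.card (points q) : ℤ), by exact_mod_cast Nat.card_pos.ne', ?_⟩
  rw [natCast_zsmul]
  exact card_nsmul_eq_zero'

theorem conclude {I : ℤ × ℤ → ℝ} {β C : ℝ} (hβ : 1 ≤ β)
    (hU : ∃ C₁ : ℝ, 0 < C₁ ∧ ∀ Z : ℝ, 1 ≤ Z →
      ((Pool.Agent.L0h45.AD.Upto I β Z).ncard : ℝ) ≤ C₁ * Z ^ (5 / 6 : ℝ))
    (hI : ∀ q ∈ Family, I q ≤ C * height q) : PositiveProportion I β := by
  have hI' : Pool.Agent.L0h45.AD.Blw C I := hI
  have hfin : ∀ Z : ℝ, (UpTo I β Z).Finite := Pool.Agent.L0h45.AD.Upto_fin I β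
  obtain ⟨c₁, hc₁, h₁⟩ := Pool.Agent.L0h45.AD.pos hβ hU hI' Pool.Agent.L0h45.AD.rank_zero_low
  obtain ⟨c₂, hc₂, h₂⟩ := Pool.Agent.L0h45.AD.low hβ hI'
  obtain ⟨C₁, hC₁, hup⟩ := hU
  have hset : ∀ Z : ℝ, {q ∈ UpTo I β Z | Finite (points q) ∧ Odd (Nat.card (points q))} =
      Pool.Agent.L0h45.AD.Upto I β Z ∩ {q | Finite (Pool.Agent.L0h45.AD.pts q) ∧
        Odd (Nat.card (Pool.Agent.L0h45.AD.pts q))} := fun Z => rfl
  refine ⟨hfin, ⟨c₂, C₁, hc₂, ?_⟩, ⟨c₁, hc₁, ?_⟩, ?_⟩
  · filter_upwards [h₂, eventually_ge_atTop 1] with Z h3 h4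
    exact ⟨h3, hup Z h4⟩
  · filter_upwards [h₁] with Z h3
    rw [hset]
    exact h3.2
  · have hev : ∀ᶠ Z : ℝ in atTop, c₁ ≤ proportion 0 I β Z := by
      filter_upwards [h₁] with Z h3
      obtain ⟨h4, h5⟩ := h3
      rw [← hset] at h5
      have h6 : {q ∈ UpTo I β Z | Finite (points q) ∧ Odd (Nat.card (points q))} ⊆
          {q ∈ UpTo I β Z | rank q = 0} := fun q hq => ⟨hq.1, rank_zero q hq.2.1⟩
      have h7 := Set.ncard_le_ncard h6 ((hfin Z).subset fun q hq => hq.1)
      have h8 : 0 < (UpTo I β Z).ncard := h4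
      unfold proportion
      rw [le_div_iff₀ (by exact_mod_cast h8)]
      exact h5.trans (by exact_mod_cast h7)
    refine lt_of_lt_of_le hc₁ (Filter.le_liminf_of_le ?_ hev)
    refine Filter.IsBoundedUnder.isCoboundedUnder_ge ?_
    refine Filter.isBoundedUnder_of ⟨1, fun Z => ?_⟩
    unfold proportion
    refine div_le_one_of_le₀ ?_ (Nat.cast_nonneg _)
    exact_mod_cast Set.ncard_le_ncard (s := {q ∈ UpTo I β Z | rank q = 0}) (fun q hq => hq.1) (hfin Z)

theorem conductor6_le (q : ℤ × ℤ) (h : q ∈ Family) : (conductor6 q : ℝ) ≤ |(disc q : ℝ)| := by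
  have hD : disc q ≠ 0 := h.1
  have hdvd : ((conductor6 q : ℕ) : ℤ) ∣ disc q := by
    unfold conductor6
    push_cast
    apply Finset.prod_dvd_of_coprime
    · intro p hp p' hp' hne
      have h1 := Nat.prime_of_mem_primeFactors (Finset.mem_filter.mp hp).1
      have h2 := Nat.prime_of_mem_primeFactors (Finset.mem_filter.mp hp').1
      have h3 : IsCoprime (p : ℤ) (p' : ℤ) :=
        Nat.isCoprime_iff_coprime.mpr ((Nat.coprime_primes h1 h2).mpr hne)
      simp only [Function.onFun]
      split_ifs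
      · exact h3.pow
      · exact h3.pow_left
      · exact h3.pow_right
      · exact h3
    · intro p hp
      rw [Finset.mem_filter, Nat.mem_primeFactors] at hp
      obtain ⟨⟨h1, h2, -⟩, h5⟩ := hp
      have h3 : (p : ℤ) ∣ disc q := Int.natCast_dvd.mpr h2
      split_ifs with h4
      · obtain ⟨k, hk⟩ := h4
        have h6 : (p : ℤ) ∣ 27 * q.2 ^ 2 := by
          have h7 : 27 * q.2 ^ 2 = disc q - p * (4 * q.1 ^ 2 * k) := by
            unfold disc
            nth_rewrite 1 [pow_succ, hk]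
            rw [hk]
            ring
          rw [h7]
          exact dvd_sub h3 (dvd_mul_right _ _)
        have h8 : (p : ℤ) ∣ q.2 := by
          have hc : IsCoprime (p : ℤ) 27 := by
            have h9 : Nat.Coprime p 27 := by
              have : (27 : ℕ) = 3 ^ 3 := by norm_num
              rw [this]
              exact Nat.Coprime.pow_right 3 ((Nat.coprime_primes h1 Nat.prime_three).mpr (by omega))
            exact_mod_cast Nat.isCoprime_iff_coprime.mpr h9
          exact (Nat.prime_iff_prime_int.mp h1).dvd_of_dvd_pow (hc.dvd_of_dvd_mul_left h6)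
        obtain ⟨l, hl⟩ := h8
        refine ⟨4 * p * k ^ 3 + 27 * l ^ 2, ?_⟩
        unfold disc
        rw [hk, hl]
        ring
      · exact h3
  have h1 : conductor6 q ≤ (disc q).natAbs :=
    Nat.le_of_dvd (Int.natAbs_pos.mpr hD) (Int.natCast_dvd.mp hdvd)
  calc (conductor6 q : ℝ) ≤ (((disc q).natAbs : ℕ) : ℝ) := by exact_mod_cast h1
    _ = |(disc q : ℝ)| := by
      rw [← Int.cast_abs, Int.abs_eq_natAbs]
      simp

theorem disc_le (q : ℤ × ℤ) : |(disc q : ℝ)| ≤ 2 * height q := by
  unfold disc height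
  push_cast
  have h1 := abs_add_le (4 * (q.1 : ℝ) ^ 3) (27 * (q.2 : ℝ) ^ 2)
  rw [abs_mul, abs_mul, abs_pow, abs_pow, abs_of_pos (by norm_num : (0 : ℝ) < 4),
    abs_of_pos (by norm_num : (0 : ℝ) < 27), sq_abs] at h1
  have h2 := le_max_left (4 * |(q.1 : ℝ)| ^ 3) (27 * (q.2 : ℝ) ^ 2)
  have h3 := le_max_right (4 * |(q.1 : ℝ)| ^ 3) (27 * (q.2 : ℝ) ^ 2)
  linarith

/-- **Theorem.** (1) Let `1 < β < 10/7` and let the invariant `I` be at least `c` times the part prime to `6` of the
conductor and at most `C` times the height, with constants `c, C > 0`; for example `I` may be the conductor. Then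
`PositiveProportion I β`: there are about `Z ^ (5/6)` elliptic curves over `ℚ` with `I ≤ Z` and height at most `Z ^ β`, and
a positive proportion of them has rank zero, with finitely many and an odd number of rational points. (2) If `I` is at least
`c` times the discriminant, for example the minimal discriminant, this is true for `1 < β ≤ 5/2`. (3) The part prime to `6`
of the conductor is at most `|4 A ^ 3 + 27 B ^ 2|`, which is at most twice the height. -/
theorem result :
    (∀ (I : ℤ × ℤ → ℝ) (c C β : ℝ), 0 < c → 0 < C → 1 < β → β < 10 / 7 →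
      (∀ q ∈ Family, c * (conductor6 q : ℝ) ≤ I q ∧ I q ≤ C * height q) → PositiveProportion I β) ∧
    (∀ (I : ℤ × ℤ → ℝ) (c C β : ℝ), 0 < c → 0 < C → 1 < β → β ≤ 5 / 2 →
      (∀ q ∈ Family, c * |(disc q : ℝ)| ≤ I q ∧ I q ≤ C * height q) → PositiveProportion I β) ∧
    (∀ q ∈ Family, (conductor6 q : ℝ) ≤ |(disc q : ℝ)| ∧ |(disc q : ℝ)| ≤ 2 * height q) := by
  refine ⟨?_, ?_, ?_⟩
  · intro I c C β hc hC hβ1 hβ2 hI
    have hI' : Pool.Agent.L0h45.AD.Btw c C I := hI
    exact conclude hβ1.le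
      (Pool.Agent.L0h45.AD.split (s := 1 / 12) (by norm_num) (by norm_num) (by linarith) hβ2 hc hI').up
      (fun q hq => (hI q hq).2)
  · intro I c C β hc hC hβ1 hβ2 hI
    exact conclude hβ1.le
      (Pool.Agent.L0h45.AD.up_disc (by linarith) hβ2 hc (fun q hq => (hI q hq).1))
      (fun q hq => (hI q hq).2)
  · intro q hq
    exact ⟨conductor6_le q hq, disc_le q⟩

end Pool.Agent.Results.MP_6073f3_nt.RankZeroByConductor
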